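import Pool.Agent.H16.HK.GS

/-!
# The theta identity for positive definite matrices
-/

set_option autoImplicit false

open Finset Set Pool.Agent.H25.HK MeasureTheory

namespace Pool.Agent.H16.HK

/-- (PO) -/
theorem po (h1 : T_PS) (h2 : T_GA) (h3 : T_GS) : T_PO := by
  intro ι _ _ S hS
  have key : ∀ S : Matrix ι ι ℝ, S.PosDef →
      Summable (fun m : ι → ℤ => Real.exp (-Real.pi * qf S (fun i => (m i : ℝ)))) := by
    intro S hS
    obtain ⟨B, hB, hB2⟩ := h3 ι S hS
    refine Summable.of_nonneg_of_le (fun m => (Real.exp_pos _).le) (fun m => ?_) hB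
    have := hB2 m (fun _ => 0) (fun i => ⟨le_rfl, zero_le_one⟩)
    simpa using this
  refine ⟨key S hS, ?_⟩
  obtain ⟨B, hB, hB2⟩ := h3 ι S hS
  have hF : ∀ k : ι → ℤ,
      ∫ x : ι → ℝ, Complex.exp (-(2 * Real.pi * (∑ i, (k i : ℝ) * x i) : ℝ) * Complex.I) *
        ((Real.exp (-Real.pi * qf S x) : ℝ) : ℂ) =
      (((Real.sqrt S.det)⁻¹ * Real.exp (-Real.pi * qf S⁻¹ (fun i => (k i : ℝ))) : ℝ) : ℂ) :=
    fun k => (h2 ι S hS (fun i => (k i : ℝ))).2
  have h := h1 ι (fun x => ((Real.exp (-Real.pi * qf S x) : ℝ) : ℂ)) B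
    (Complex.continuous_ofReal.comp (Real.continuous_exp.comp
      (continuous_const.mul (qf_cont S))))
    ((h2 ι S hS 0).1.ofReal)
    (fun m x hx => by
      rw [Complex.norm_real, Real.norm_of_nonneg (Real.exp_pos _).le]
      exact hB2 m x hx) hB
    (by
      simp only [hF]
      exact Complex.ofRealCLM.summable (((key S⁻¹ hS.inv)).mul_left _))
  simp only [hF] at h
  rw [← tsum_mul_left]
  apply Complex.ofReal_injective
  rw [Complex.ofReal_tsum, Complex.ofReal_tsum]
  exact h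

end Pool.Agent.H16.HK
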